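import Pool.Agent.Helper22.G4.Cone

/-! # G4-P1: Farkas lemma for finitely many vectors of a real vector space -/

namespace Pool.Agent.Helper52.G4

open Submodule

variable {V E : Type*} [AddCommGroup E] [Module ℝ E]

/-- G4-P1 (Farkas). -/
theorem farkas {ι : Type*} (s : Finset ι) (c : ι → E) (x : E) :
    (∃ b : ι → ℝ, (∀ i ∈ s, 0 ≤ b i) ∧ x = ∑ i ∈ s, b i • c i) ∨
      ∃ f : E →ₗ[ℝ] ℝ, (∀ i ∈ s, 0 ≤ f (c i)) ∧ f x < 0 := by
  classical
  induction s using Finset.induction_on generalizing c x with
  | empty =>
    by_cases hx : x = 0
    · exact Or.inl ⟨0, by simp, by simp [hx]⟩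
    · right
      have h : ∃ f : E →ₗ[ℝ] ℝ, f x ≠ 0 := by
        by_contra hcon
        push Not at hcon
        exact hx ((Module.forall_dual_apply_eq_zero_iff ℝ x).mp hcon)
      obtain ⟨f, hf⟩ := h
      rcases lt_or_gt_of_ne hf with h | h
      · exact ⟨f, by simp, h⟩
      · exact ⟨-f, by simp, by simpa using h⟩
  | insert a s ha ih =>
    rcases ih c x with ⟨b, hb, hx⟩ | ⟨f, hf, hfx⟩
    · left
      refine ⟨Function.update b a 0, ?_, ?_⟩
      · intro i hi
        by_cases hia : i = a
        · subst hia; simp
        · rw [Function.update_of_ne hia]
          exact hb i ((Finset.mem_insert.mp hi).resolve_left hia)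
      · rw [Finset.sum_insert ha, Function.update_self, zero_smul, zero_add, hx]
        refine Finset.sum_congr rfl fun i hi => ?_
        have hia : i ≠ a := fun h => ha (h ▸ hi)
        rw [Function.update_of_ne hia]
    · by_cases hfa : 0 ≤ f (c a)
      · right
        refine ⟨f, ?_, hfx⟩
        intro i hi
        rcases Finset.mem_insert.mp hi with rfl | hi
        · exact hfa
        · exact hf i hi
      · push Not at hfa
        rcases ih (fun i => f (c i) • c a - f (c a) • c i) (f x • c a - f (c a) • x) with
          ⟨m, hm, hx⟩ | ⟨g, hg, hgx⟩
        · left
          have hpos : 0 < -f (c a) := by linarith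
          set S : ℝ := ∑ i ∈ s, m i * f (c i) with hS
          have hS0 : 0 ≤ S := Finset.sum_nonneg fun i hi => mul_nonneg (hm i hi) (hf i hi)
          refine ⟨Function.update m a ((S - f x) / (-f (c a))), ?_, ?_⟩
          · intro i hi
            by_cases hia : i = a
            · subst hia
              rw [Function.update_self]
              exact div_nonneg (by linarith) hpos.le
            · rw [Function.update_of_ne hia]
              exact hm i ((Finset.mem_insert.mp hi).resolve_left hia)
          · rw [Finset.sum_insert ha, Function.update_self]
            have h1 : ∑ i ∈ s, Function.update m a ((S - f x) / (-f (c a))) i • c i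
                = ∑ i ∈ s, m i • c i := by
              refine Finset.sum_congr rfl fun i hi => ?_
              have hia : i ≠ a := fun h => ha (h ▸ hi)
              rw [Function.update_of_ne hia]
            rw [h1]
            have h2 : ∑ i ∈ s, m i • (f (c i) • c a - f (c a) • c i)
                = S • c a - f (c a) • ∑ i ∈ s, m i • c i := by
              rw [hS, Finset.sum_smul, Finset.smul_sum, ← Finset.sum_sub_distrib]
              refine Finset.sum_congr rfl fun i _ => ?_
              rw [smul_sub, smul_smul, smul_comm (m i) (f (c a))]
            rw [h2] at hx
            have h3 : (-f (c a)) • x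
                = (-f (c a)) • (((S - f x) / (-f (c a))) • c a + ∑ i ∈ s, m i • c i) := by
              rw [smul_add, smul_smul, mul_div_cancel₀ _ hpos.ne', sub_smul, neg_smul, neg_smul]
              have h4 : f (c a) • x = f x • c a - (S • c a - f (c a) • ∑ i ∈ s, m i • c i) := by
                rw [← hx]; abel
              rw [h4]
              abel
            exact smul_right_injective E hpos.ne' h3
        · right
          refine ⟨g (c a) • f - f (c a) • g, ?_, ?_⟩
          · intro i hi
            rcases Finset.mem_insert.mp hi with rfl | hi
            · simp [mul_comm]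
            · have := hg i hi
              simp only [map_sub, map_smul, smul_eq_mul] at this
              simp only [LinearMap.sub_apply, LinearMap.smul_apply, smul_eq_mul]
              linarith
          · simp only [map_sub, map_smul, smul_eq_mul] at hgx
            simp only [LinearMap.sub_apply, LinearMap.smul_apply, smul_eq_mul]
            linarith

end Pool.Agent.Helper52.G4
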