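import Pool.Agent.Helper22.G4.Poly

/-! # G4-E1: formulas to quadratic systems -/

namespace Pool.Agent.Helper52.G4

open Pool.Agent.Helper22.G4 Pool.Agent.Helper89 Pool.Agent.Helper91.PolyTime

/-- the assignment of the quadratic system belonging to local values `ρ` -/
private def asg (ρ : ℕ → ℕ → ℝ) (i : ℕ) : ℝ :=
  if i = 0 then 0 else if i = 1 then 1 else ρ ((i - 2) / 7) ((i - 2) % 7)

private theorem asg_blk (ρ : ℕ → ℕ → ℝ) (p j : ℕ) (hj : j < 7) : asg ρ (2 + 7 * p + j) = ρ p j := by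
  unfold asg
  rw [if_neg (by omega), if_neg (by omega)]
  have h1 : (2 + 7 * p + j - 2) / 7 = p := by omega
  have h2 : (2 + 7 * p + j - 2) % 7 = j := by omega
  rw [h1, h2]

private theorem asg_rref (ρ : ℕ → ℕ → ℝ) (v : Env) (r : RRef) (hr : r.Ok) :
    asg ρ (rref v r) = r.val ρ v := by
  cases r with
  | one => simp [asg, rref, RRef.val]
  | zero => simp [asg, rref, RRef.val]
  | cur j => exact asg_blk ρ v.p j hr
  | lft => exact asg_blk ρ v.l 0 (by norm_num)
  | rgt => exact asg_blk ρ v.r 0 (by norm_num)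
  | hom => exact asg_blk ρ v.h 6 (by norm_num)

private theorem val_of (x : ℕ → ℝ) (h0 : x 0 = 0) (h1 : x 1 = 1) (v : Env) (r : RRef) :
    x (rref v r) = r.val (fun p j => x (2 + 7 * p + j)) v := by
  cases r with
  | one => simp [rref, RRef.val, h1]
  | zero => simp [rref, RRef.val, h0]
  | cur j => rfl
  | lft => rfl
  | rgt => rfl
  | hom => rfl

/-- G4-E1 -/
theorem quadSat_quadsOf (φ : QFormula) :
    QuadSat (quadsOf φ.enc) ↔ ∃ x : ℕ → ℝ, φ.Holds x := by
  rw [← exists_progSat_iff]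
  constructor
  · rintro ⟨x, h0, h1, hx⟩
    refine ⟨fun p j => x (2 + 7 * p + j), ?_⟩
    rw [progSat_iff]
    intro b hb q hq
    have := hx (rref b.2 q.i, rref b.2 q.j, rref b.2 q.k, rref b.2 q.l) (by
      unfold quadsOf
      exact List.mem_flatMap.2 ⟨b, hb, List.mem_map.2 ⟨q, hq, rfl⟩⟩)
    simp only [Q4.Holds, val_of x h0 h1] at this
    exact this
  · rintro ⟨ρ, hρ⟩
    rw [progSat_iff] at hρ
    refine ⟨asg ρ, by simp [asg], by simp [asg], ?_⟩
    intro q hq
    unfold quadsOf at hq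
    obtain ⟨b, hb, hq⟩ := List.mem_flatMap.1 hq
    obtain ⟨q', hq', rfl⟩ := List.mem_map.1 hq
    have hh := hρ b hb q' hq'
    obtain ⟨o1, o2, o3, o4⟩ := cons_ok b.1 q' hq'
    simp only [Q4.Holds, asg_rref ρ b.2 _ o1, asg_rref ρ b.2 _ o2, asg_rref ρ b.2 _ o3,
      asg_rref ρ b.2 _ o4]
    exact hh

end Pool.Agent.Helper52.G4
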