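import Pool.Agent.Helper22.G4.Sys

/-! # G4-N1: from quadratic systems to systems with all variables greater than one -/

namespace Pool.Agent.Helper52.G4

open Pool.Agent.Helper22.G4

/-- positive and negative parts -/
noncomputable def n1A (x : ℕ → ℝ) (i : ℕ) : ℝ := x i + |x i| + 2
noncomputable def n1B (x : ℕ → ℝ) (i : ℕ) : ℝ := |x i| + 2

/-- the auxiliary variables -/
noncomputable def n1aux (x : ℕ → ℝ) (q : Q4) (k : ℕ) : ℝ :=
  let w0 := n1A x q.1 * n1A x q.2.1
  let w1 := n1B x q.1 * n1B x q.2.1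
  let w2 := n1A x q.1 * n1B x q.2.1
  let w3 := n1B x q.1 * n1A x q.2.1
  if k = 0 then w0 else if k = 1 then w1 else if k = 2 then w2 else if k = 3 then w3
  else if k = 4 then w0 + w1 else if k = 5 then w2 + w3
  else if k = 6 then w0 + w1 + n1A x q.2.2.1
  else if k = 7 then w2 + w3 + n1B x q.2.2.1
  else w0 + w1 + n1A x q.2.2.1 + n1B x q.2.2.2

noncomputable def n1u (x : ℕ → ℝ) (L : List Q4) (i : ℕ) : ℝ :=
  if i < 2 * bnd L then (if i % 2 = 0 then n1A x (i / 2) else n1B x (i / 2))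
  else n1aux x (L.getD ((i - 2 * bnd L) / 9) (0, 0, 0, 0)) ((i - 2 * bnd L) % 9)

theorem n1A_ge (x : ℕ → ℝ) (i : ℕ) : 2 ≤ n1A x i := by
  unfold n1A
  have := neg_abs_le (x i)
  linarith

theorem n1B_ge (x : ℕ → ℝ) (i : ℕ) : 2 ≤ n1B x i := by
  unfold n1B
  have := abs_nonneg (x i)
  linarith

theorem n1aux_gt (x : ℕ → ℝ) (q : Q4) (k : ℕ) : 1 < n1aux x q k := by
  have h1 := n1A_ge x q.1
  have h2 := n1A_ge x q.2.1
  have h3 := n1B_ge x q.1
  have h4 := n1B_ge x q.2.1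
  have h5 := n1A_ge x q.2.2.1
  have h6 := n1B_ge x q.2.2.1
  have h7 := n1B_ge x q.2.2.2
  have g0 : 4 ≤ n1A x q.1 * n1A x q.2.1 := by nlinarith
  have g1 : 4 ≤ n1B x q.1 * n1B x q.2.1 := by nlinarith
  have g2 : 4 ≤ n1A x q.1 * n1B x q.2.1 := by nlinarith
  have g3 : 4 ≤ n1B x q.1 * n1A x q.2.1 := by nlinarith
  unfold n1aux
  simp only
  split_ifs <;> linarith

theorem n1u_gt (x : ℕ → ℝ) (L : List Q4) (i : ℕ) : 1 < n1u x L i := by
  unfold n1u
  split_ifs
  · have := n1A_ge x (i / 2); linarith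
  · have := n1B_ge x (i / 2); linarith
  · exact n1aux_gt _ _ _

theorem n1_lt_bnd {L : List Q4} {q : Q4} (h : q ∈ L) :
    q.1 < bnd L ∧ q.2.1 < bnd L ∧ q.2.2.1 < bnd L ∧ q.2.2.2 < bnd L := by
  have h1 : q.1 + q.2.1 + q.2.2.1 + q.2.2.2 ≤ (L.map fun q => q.1 + q.2.1 + q.2.2.1 + q.2.2.2).sum :=
    List.single_le_sum (by simp) _ (List.mem_map.mpr ⟨q, h, rfl⟩)
  unfold bnd
  omega

theorem n1u_av (x : ℕ → ℝ) {L : List Q4} {i : ℕ} (hi : i < bnd L) :
    n1u x L (av i) = n1A x i := by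
  unfold n1u av
  rw [if_pos (by omega), if_pos (by omega)]
  congr 1
  omega

theorem n1u_bv {x : ℕ → ℝ} (hx : x 0 = 0) {L : List Q4} {i : ℕ} (hi : i < bnd L) :
    n1u x L (bv i) = n1B x i := by
  unfold n1u bv
  by_cases h : i = 0
  · subst h
    rw [if_pos rfl, if_pos (by omega), if_pos (by omega)]
    simp [n1A, n1B, hx]
  · rw [if_neg h, if_pos (by omega), if_neg (by omega)]
    congr 1
    omega

theorem n1u_aux (x : ℕ → ℝ) {L : List Q4} {q : Q4} {t : ℕ} (h : L[t]? = some q) {k : ℕ}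
    (hk : k < 9) : n1u x L (2 * bnd L + 9 * t + k) = n1aux x q k := by
  unfold n1u
  rw [if_neg (by omega)]
  have h1 : (2 * bnd L + 9 * t + k - 2 * bnd L) / 9 = t := by omega
  have h2 : (2 * bnd L + 9 * t + k - 2 * bnd L) % 9 = k := by omega
  rw [h1, h2, List.getD_eq_getElem?_getD, h, Option.getD_some]

/-- G4-N1 -/
theorem posSat_of_quadSat {L : List Q4} (h : QuadSat L) : PosSat (posOf L) := by
  obtain ⟨x, hx0, hx1, hL⟩ := h
  refine ⟨n1u x L, n1u_gt x L, ?_⟩
  intro c hc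
  unfold posOf at hc
  rw [List.mem_cons, List.mem_flatMap] at hc
  rcases hc with rfl | ⟨⟨q, t⟩, hq, hc⟩
  · have hb : 1 < bnd L := by unfold bnd; omega
    simp only [PC.Holds]
    rw [if_neg (by norm_num), if_neg (by norm_num), n1u_av x hb, n1u_bv hx0 hb]
    simp [n1A, n1B, hx1]
    norm_num
  · rw [List.mem_zipIdx_iff_getElem?] at hq
    simp only at hq hc
    have hmem : q ∈ L := List.mem_of_getElem? hq
    obtain ⟨b1, b2, b3, b4⟩ := n1_lt_bnd hmem
    have hh := hL q hmem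
    unfold Q4.Holds at hh
    have e0 := n1u_aux x hq (k := 0) (by norm_num)
    have e1 := n1u_aux x hq (k := 1) (by norm_num)
    have e2 := n1u_aux x hq (k := 2) (by norm_num)
    have e3 := n1u_aux x hq (k := 3) (by norm_num)
    have e4 := n1u_aux x hq (k := 4) (by norm_num)
    have e5 := n1u_aux x hq (k := 5) (by norm_num)
    have e6 := n1u_aux x hq (k := 6) (by norm_num)
    have e7 := n1u_aux x hq (k := 7) (by norm_num)
    have e8 := n1u_aux x hq (k := 8) (by norm_num)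
    rw [add_zero] at e0
    simp only [n1aux] at e0 e1 e2 e3 e4 e5 e6 e7 e8
    norm_num at e0 e1 e2 e3 e4 e5 e6 e7 e8
    have a1 := n1u_av x b1
    have a2 := n1u_av x b2
    have a3 := n1u_av x b3
    have a4 := n1u_av x b4
    have c1 := n1u_bv hx0 b1
    have c2 := n1u_bv hx0 b2
    have c3 := n1u_bv hx0 b3
    have c4 := n1u_bv hx0 b4
    simp only [posQ, List.mem_cons, List.not_mem_nil, or_false] at hc
    rcases hc with rfl | rfl | rfl | rfl | rfl | rfl | rfl | rfl | rfl | rfl <;>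
      simp only [PC.Holds]
    · norm_num [a1, a2, e0]
    · norm_num [c1, c2, e1]
    · norm_num [a1, c2, e2]
    · norm_num [c1, a2, e3]
    · norm_num [e0, e1, e4]
    · norm_num [e2, e3, e5]
    · norm_num [e4, a3, e6]
    · norm_num [e5, c3, e7]
    · norm_num [e6, c4, e8]
    · norm_num [e7, a4, e8]
      simp only [n1A, n1B]
      linear_combination (-1 : ℝ) * hh

end Pool.Agent.Helper52.G4
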