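import Pool.Agent.Helper22.G4.St.P2
import Pool.Agent.Helper22.G4.St.P3

/-! # G4-P4: a vertex of a face of rank `k` has at least `k - 1` neighbours in the face -/

namespace Pool.Agent.Helper52.G4

open Submodule Pool.Agent.Helper22.G4

variable {V E : Type*} [AddCommGroup E] [Module ℝ E]

/-- G4-P4 (a vertex of a face of rank `k` has at least `k - 1` neighbours in the face). -/
theorem rank_le_neighbours {c : V → E} {A : Finset V} (hc : Conf c A) {Z : Finset V}
    (hZ : FaceOn c A (Z : Set V)) {v : V} (hv : v ∈ Z) :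
    rk c (Z : Set V) ≤ 1 + {t | t ∈ Z ∧ t ≠ v ∧ FaceOn c A {v, t}}.ncard := by
  classical
  have hZA : Z ⊆ A := by exact_mod_cast hZ.1
  have hcZ : Conf c Z := hc.restrict hZA
  set N : Finset V := Z.filter (fun t => t ≠ v ∧ FaceOn c A {v, t}) with hN
  have hNc : {t | t ∈ Z ∧ t ≠ v ∧ FaceOn c A {v, t}} = (N : Set V) := by
    ext t; simp [hN]
  rw [hNc, Set.ncard_coe_finset]
  have hle : span ℝ (c '' (Z : Set V)) ≤ span ℝ (((insert v N).image c : Finset E) : Set E) := by
    rw [span_le]
    rintro _ ⟨w, hw, rfl⟩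
    obtain ⟨a, b, -, hb, h⟩ := core hcZ hv (w := w) (by exact_mod_cast hw)
    rw [SetLike.mem_coe, h]
    refine add_mem (smul_mem _ _ (subset_span ?_)) (sum_mem fun t ht => ?_)
    · simp
    · by_cases h0 : b t = 0
      · rw [h0, zero_smul]; exact zero_mem _
      · obtain ⟨h1, h2⟩ := hb t ht h0
        refine smul_mem _ _ (subset_span ?_)
        have h3 : t ∈ N := by
          rw [hN, Finset.mem_filter]
          exact ⟨ht, h1, FaceOn.trans hZ h2⟩
        simp only [Finset.coe_image, Set.mem_image, Finset.mem_coe, Finset.mem_insert]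
        exact ⟨t, Or.inr h3, rfl⟩
  have h1 : rk c (Z : Set V) ≤ Module.finrank ℝ (span ℝ (((insert v N).image c : Finset E) : Set E)) :=
    Submodule.finrank_mono hle
  have h2 := finrank_span_finset_le_card (R := ℝ) ((insert v N).image c)
  have h3 : ((insert v N).image c).card ≤ (insert v N).card := Finset.card_image_le
  have h4 : (insert v N).card ≤ N.card + 1 := Finset.card_insert_le v N
  have h5 : Module.finrank ℝ (span ℝ (((insert v N).image c : Finset E) : Set E))
      ≤ ((insert v N).image c).card := h2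
  omega

end Pool.Agent.Helper52.G4
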