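import Pool.Agent.Helper22.G4.Real
import Pool.Agent.Helper22.G4.St.C0
import Pool.Agent.Helper22.G4.St.R6
import Pool.Agent.Helper22.G4.St.R7
import Pool.Agent.Helper22.G4.St.R9

/-! # G4-R10: the gadget polytope is described by its inequalities -/

namespace Pool.Agent.Helper52.G4

open Submodule Pool.Agent.Helper22.G4

theorem r10_lin (a b c d e : ℝ) (x : E5) :
    lin a b c d e x = a * x 0 + b * x 1 + c * x 2 + d * x 3 + e * x 4 := by
  simp [lin]

theorem r10_coords {X Y : ℝ} (hX : X ≠ 0) (hY : Y ≠ 0) (hXY : Y - X ≠ 0) (x : E5) :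
    x 2 = b0 X Y x + bX X Y x + bX Y X x ∧ x 3 = bX X Y x * X + bX Y X x * Y ∧
      x 4 = bX X Y x * X ^ 2 + bX Y X x * Y ^ 2 := by
  have hYX : X - Y ≠ 0 := fun h => hXY (by linarith)
  have h1 : Y / (X * (Y - X)) * (Y * (Y - X)) = Y ^ 2 / X := by field_simp
  rw [b0, bX, bX, r10_lin, r10_lin, r10_lin]
  have e1 : X / (Y * (X - Y)) = -(X / (Y * (Y - X))) := by
    rw [show Y * (X - Y) = -(Y * (Y - X)) by ring, div_neg]
  have e2 : -1 / (Y * (X - Y)) = 1 / (Y * (Y - X)) := by
    rw [show Y * (X - Y) = -(Y * (Y - X)) by ring, neg_div_neg_eq]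
  rw [e1, e2]
  refine ⟨?_, ?_, ?_⟩
  · field_simp
    ring
  · field_simp
    ring
  · field_simp
    ring

theorem r10_gX_ne (g : ℕ) : gX g ≠ 0 ∧ gY g ≠ 0 ∧ gX g ≠ gY g := by
  unfold gX gY
  split_ifs <;> omega

theorem r10_le {I : NF} {g : ℕ} (hg : g < 3 * I.ops.length) : gX g ≤ I.M ∧ gY g ≤ I.M := by
  unfold gX gY NF.M
  split_ifs <;> omega

/-- G4-R10 (the gadget polytope is described by its inequalities). -/
theorem gadget_compl {I : NF} (hI : I.OK) (G : Geo I) (h : ℝ) {m : ℝ} (hm : 1 ≤ m) {g : ℕ}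
    (hg : g < 3 * I.ops.length) (x : E5) (h0 : b0 (gX g) (gY g) x ≤ 0) (hX : 0 ≤ Geo.fGX m g x)
    (hY : 0 ≤ Geo.fGY m g x) (hT : 0 ≤ Geo.fT m g x)
    (hG : ∀ s b, Fc.G I.N (gX g) (gY g) g (s, b) ∈ I.data.fcodes → 0 ≤ G.fG h m g s x) :
    InCone (G.c h m) I.data.verts.toFinset x := by
  obtain ⟨hX0, hY0, hXY⟩ := r10_gX_ne g
  obtain ⟨hXM, hYM⟩ := r10_le (I := I) hg
  have hX0' : (gX g : ℝ) ≠ 0 := by exact_mod_cast hX0
  have hY0' : (gY g : ℝ) ≠ 0 := by exact_mod_cast hY0
  have hXY' : (gY g : ℝ) - gX g ≠ 0 := by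
    rw [sub_ne_zero]
    exact_mod_cast hXY.symm
  obtain ⟨c2, c3, c4⟩ := r10_coords hX0' hY0' hXY' x
  set tX : ℝ := bX (gX g) (gY g) x with htX
  set tY : ℝ := bX (gY g) (gX g) x with htY
  obtain ⟨κ, hκ⟩ : ∃ κ : ℝ, b0 (gX g) (gY g) x = -κ := ⟨-(b0 (gX g) (gY g) x), by ring⟩
  rw [hκ] at h0 c2
  have hκ0 : 0 ≤ κ := by linarith
  have hX' : 0 ≤ tY - m * κ := by
    have : Geo.fGX m g x = tY - m * κ := by
      simp only [Geo.fGX, LinearMap.add_apply, LinearMap.smul_apply, smul_eq_mul, hκ, ← htY]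
      ring
    rwa [this] at hX
  have hY' : 0 ≤ tX - (m - 1) * κ := by
    have : Geo.fGY m g x = tX - (m - 1) * κ := by
      simp only [Geo.fGY, LinearMap.add_apply, LinearMap.smul_apply, smul_eq_mul, hκ, ← htX]
      ring
    rwa [this] at hY
  have hT' : 0 ≤ tX + tY - 2 * m * κ := by
    have : Geo.fT m g x = tX + tY - 2 * m * κ := by
      simp only [Geo.fT, LinearMap.add_apply, LinearMap.smul_apply, smul_eq_mul, hκ, ← htX,
        ← htY]
      ring
    rwa [this] at hT
  have hG' : ∀ s b, Fc.G I.N (gX g) (gY g) g (s, b) ∈ I.data.fcodes →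
      κ * (G.T (gX g) s - G.T (gY g) s) ≤ x 1 - κ * m * h - G.al s * x 0
        - G.T (gX g) s * (tX - κ * m) - G.T (gY g) s * (tY - κ * m) := by
    intro s b hs
    have h1 := hG s b hs
    simp only [Geo.fG, LinearMap.add_apply, LinearMap.sub_apply, LinearMap.smul_apply,
      smul_eq_mul, hκ, ← htX, ← htY, r10_lin] at h1
    linarith
  set μ : ℝ := min κ (tY - κ * m) with hμ
  have hμ0 : 0 ≤ μ := le_min hκ0 (by linarith)
  have hμκ : μ ≤ κ := min_le_left _ _
  have hμY : μ ≤ tY - κ * m := min_le_right _ _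
  have htX' : 0 ≤ tX - κ * m + μ := by
    rcases min_choice κ (tY - κ * m) with h1 | h1
    · rw [hμ, h1]; linarith
    · rw [hμ, h1]; linarith
  have htY' : 0 ≤ tY - κ * m - μ := by linarith
  have key : ∀ s b, Fc.G I.N (gX g) (gY g) g (s, b) ∈ I.data.fcodes →
      (tX - κ * m + μ) * G.T (gX g) s + (tY - κ * m - μ) * G.T (gY g) s
        ≤ (x 1 - κ * m * h) - G.al s * x 0 := by
    intro s b hs
    obtain ⟨hsN, ht, hf⟩ := gad_T hI G hs
    have h1 := hG' s b hs
    cases b with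
    | true =>
      have h2 := ht rfl
      rw [h2] at h1 ⊢
      linarith
    | false =>
      rcases min_choice κ (tY - κ * m) with h3 | h3
      · have h4 : μ = κ := by rw [hμ, h3]
        rw [h4]
        linarith
      · have h4 : μ = tY - κ * m := by rw [hμ, h3]
        obtain ⟨z, i, j, hiz, hzj, hPU, -, hi, hj, hz⟩ := gad_middle hI hg
        obtain rfl := hz s hs
        obtain ⟨-, hjN, -⟩ := NF.pu_lt hI hPU
        have hai := G.mono i s hiz hsN
        have haj := G.mono s j hzj hjN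
        have ei := ((G.tan _ _ _ hPU i (by omega)).2).mpr ⟨le_refl i, by omega⟩
        have es := ((G.tan _ _ _ hPU s hsN).2).mpr ⟨hiz.le, hzj.le⟩
        have ej := ((G.tan _ _ _ hPU j hjN).2).mpr ⟨by omega, le_refl j⟩
        have gi := hG' i true hi
        have gj := hG' j true hj
        have ti := (gad_T hI G hi).2.1 rfl
        have tj := (gad_T hI G hj).2.1 rfl
        rw [← ti, ei] at gi
        rw [← tj, ej] at gj
        rw [h4, es]
        set A : ℝ := G.H (gX g) i
        set C : ℝ := G.X (gX g) i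
        set τ : ℝ := tX + tY - 2 * (κ * m) with hτ
        have gi' : 0 ≤ (x 1 - κ * m * h - τ * A) - G.al i * (x 0 - τ * C) := by
          have : 0 ≤ x 1 - κ * m * h - G.al i * x 0 - (A - G.al i * C) * τ := by
            rw [hτ]; linarith
          linarith
        have gj' : 0 ≤ (x 1 - κ * m * h - τ * A) - G.al j * (x 0 - τ * C) := by
          have : 0 ≤ x 1 - κ * m * h - G.al j * x 0 - (A - G.al j * C) * τ := by
            rw [hτ]; linarith
          linarith
        have gs' : 0 ≤ (x 1 - κ * m * h - τ * A) - G.al s * (x 0 - τ * C) := by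
          rcases le_total 0 (x 0 - τ * C) with h5 | h5
          · have : G.al s * (x 0 - τ * C) ≤ G.al j * (x 0 - τ * C) :=
              mul_le_mul_of_nonneg_right haj.le h5
            linarith
          · have : G.al s * (x 0 - τ * C) ≤ G.al i * (x 0 - τ * C) :=
              mul_le_mul_of_nonpos_right hai.le h5
            linarith
        have h6 : tX - κ * m + (tY - κ * m) = τ := by rw [hτ]; ring
        rw [h6]
        linarith
  have H := gad_interpolate hI G hg key
  have hc := chain hI G h m hXM hYM hYM htX' htY' le_rfl (x := x 0) (y := x 1 - κ * m * h)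
    (by intro s hs; have := H s hs; linarith)
  have hp := (InCone.of_mem (c := G.c h m) (List.mem_toFinset.mpr (NF.p_mem.mpr hg))).smul
    (sub_nonneg.mpr hμκ)
  have hq := (InCone.of_mem (c := G.c h m) (List.mem_toFinset.mpr (NF.q_mem.mpr hg))).smul hμ0
  have hsum := (hc.add hp).add hq
  have hx : x = vec (x 0) (x 1 - κ * m * h) (tX - κ * m + μ + (tY - κ * m - μ) + 0)
      ((tX - κ * m + μ) * gX g + (tY - κ * m - μ) * gY g + 0 * gY g)
      ((tX - κ * m + μ) * (gX g : ℝ) ^ 2 + (tY - κ * m - μ) * (gY g : ℝ) ^ 2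
        + 0 * (gY g : ℝ) ^ 2) + (κ - μ) • G.c h m (Vx.p g) + μ • G.c h m (Vx.q g) := by
    ext k
    fin_cases k
    · simp [vec, Geo.c, Vx.p, Vx.q]
    · simp [vec, Geo.c, Vx.p, Vx.q]
      ring
    · simp [vec, Geo.c, Vx.p, Vx.q]
      rw [c2]
      ring
    · simp [vec, Geo.c, Vx.p, Vx.q]
      rw [c3]
      ring
    · simp [vec, Geo.c, Vx.p, Vx.q]
      rw [c4]
      ring
  rw [hx]
  exact hsum

end Pool.Agent.Helper52.G4
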